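import Pool.Agent.H72.GS2.Targets

/-!
# Use of the second inequality of Bessel for the failures
-/

set_option autoImplicit false

namespace Pool.Agent.H72.GS2

open Finset Pool.Agent.H6.N4D Pool.Agent.H93.GS Pool.Agent.H93

open Classical in
/-- the frequency of the failure -/
noncomputable def wit (lam : ℕ → ℝ) (m : ℕ) (th' δ c : ℝ) (n q : ℕ) : ℝ :=
  if h : JF lam q (2 ^ m) n th' δ c then h.choose else 0

lemma ind_of {p : Prop} (h : p) : EB.ind p = 1 := by
  unfold EB.ind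
  rw [if_pos h]

lemma ind_not {p : Prop} (h : ¬ p) : EB.ind p = 0 := by
  unfold EB.ind
  rw [if_neg h]

lemma ind_nonneg' (p : Prop) : 0 ≤ EB.ind p := by
  by_cases h : p
  · rw [ind_of h]; norm_num
  · rw [ind_not h]

/-- the sum of the failures and the second inequality of Bessel -/
lemma bF_le {lam : ℕ → ℝ} {X m : ℕ} {th' δ c : ℝ} (hc : 0 < c) (α : ℕ → ℕ → ℝ)
    (hα : ∀ n, ∀ q ∈ EB.QQ m, ∃ b : ℤ,
      nd (α n q - wit lam m th' δ c n q - (b : ℝ) / q) ≤ δ / 2 ^ m) :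
    bF lam X m th' δ c ≤ 1 / c ^ 2 * EB.lg X (fun n => ∑ q ∈ EB.QQ m, 1 / (q : ℝ) *
        (EB.ind (th' ≤ ‖EB.crq lam q (2 ^ m) n (wit lam m th' δ c n q)‖) *
          EB.zz lam q (2 ^ m) n (α n q) (fun _ => 1) ^ 2)) := by
  unfold bF EB.lg
  rw [mul_sum]
  refine sum_le_sum fun n _ => ?_
  rw [← mul_div_assoc]
  refine div_le_div_of_nonneg_right ?_ (Nat.cast_nonneg _)
  rw [mul_sum]
  refine sum_le_sum fun q hq => ?_
  have hq0 : 0 ≤ 1 / (q : ℝ) := by positivity
  rw [← mul_assoc, mul_comm (1 / c ^ 2), mul_assoc]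
  refine mul_le_mul_of_nonneg_left ?_ hq0
  by_cases h : JF lam q (2 ^ m) n th' δ c
  · have hw : wit lam m th' δ c n q = h.choose := by
      unfold wit
      rw [dif_pos h]
    have h1 := h.choose_spec.1
    have h2 := h.choose_spec.2 (α n q) (by
      obtain ⟨b, hb⟩ := hα n q hq
      rw [hw] at hb
      refine ⟨b, hb.trans (le_of_eq ?_)⟩
      rw [Nat.cast_pow, Nat.cast_ofNat])
    rw [ind_of h, hw, ind_of h1, one_mul, div_mul_eq_mul_div, one_mul, le_div_iff₀ (by positivity),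
      one_mul]
    exact pow_le_pow_left₀ hc.le h2 2
  · rw [ind_not h]
    have := ind_nonneg' (th' ≤ ‖EB.crq lam q (2 ^ m) n (wit lam m th' δ c n q)‖)
    positivity

lemma bF_nonneg (lam : ℕ → ℝ) (X m : ℕ) (th' δ c : ℝ) : 0 ≤ bF lam X m th' δ c := by
  unfold bF EB.lg
  refine sum_nonneg fun n _ => div_nonneg (sum_nonneg fun q _ => ?_) (Nat.cast_nonneg _)
  exact mul_nonneg (by positivity) (ind_nonneg' _)

end Pool.Agent.H72.GS2
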