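import Pool.Agent.H93.GS.Targets

/-!
# Theorem (G), MP_c59857_nt, section 2: statements for the levels
-/

set_option autoImplicit false

namespace Pool.Agent.H72.GS2

open Finset Pool.Agent.H6.N4D Pool.Agent.H93.GS Pool.Agent.H93

/-- EBT. The inequality of Bessel for levels of any number, below the logarithm, with an
arbitrary threshold `th` and an arbitrary precision `δ`. -/
def T_EBT : Prop := ∀ th δ : ℝ, 0 < th → 0 < δ → ∃ B : ℕ, 1 ≤ B ∧ ∀ ε : ℝ, 0 < ε →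
  ∃ e : ℝ, 0 < e ∧ ∀ R : ℕ, ∃ s₀ : ℕ, ∀ s, s₀ ≤ s → ∃ X₀ : ℕ, ∀ (X K : ℕ) (lam : ℕ → ℝ)
    (m : ℕ → ℕ), X₀ ≤ X → (∀ n, 1 ≤ n → lam n = 1 ∨ lam n = -1) → EB.Base lam R (2 ^ s) e X →
    B * s ≤ m 0 → (∀ i, i + 1 < K → B * m i ≤ m (i + 1)) →
    (∀ i < K, (4 : ℝ) ^ m i ≤ Real.log X) →
    (∀ (α : ℕ → ℕ → ℝ) (g : ℕ → ℕ → ℕ → ℕ → ℂ),
      (∀ i < K, ∀ n, ∀ q ∈ EB.QQ (m i), EB.BV (2 ^ m i) n (g i n q)) →
      EB.besSum lam X K m (fun i n _ => α i n) g ≤ ε * Real.log X) ∧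
    (∀ β : ℕ → ℕ → ℕ → ℝ, ∃ α : ℕ → ℕ → ℕ → ℝ,
      (∀ i < K, ∀ n, ∀ q ∈ EB.QQ (m i), ∃ b : ℤ,
        nd (α i n q - β i n q - (b : ℝ) / q) ≤ δ / 2 ^ m i) ∧
      ∑ i ∈ range K, EB.lg X (fun n => ∑ q ∈ EB.QQ (m i), 1 / (q : ℝ) *
        (EB.ind (th ≤ ‖EB.crq lam q (2 ^ m i) n (β i n q)‖) *
          EB.zz lam q (2 ^ m i) n (α i n q) (fun _ => 1) ^ 2)) ≤ ε * Real.log X)

/-- DLG. Dilation: the energy of the multiples of `q` is the energy of a shorter window. -/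
def T_DLG : Prop := ∀ th : ℝ, 0 < th → th ≤ 1 → ∃ C : ℝ, 0 < C ∧
  ∀ (X k q : ℕ) (lam : ℕ → ℝ), 3 ≤ X → Lio lam → q.Prime → q ^ 2 ≤ 2 ^ k →
    |EB.lg X (fun n => En th lam q (2 ^ k) n) - EB.lg X (fun n => En th lam 1 (2 ^ k / q) n)| ≤
      C * (k + 1) + C * ((q : ℝ) / 2 ^ k) * Real.log X

/-- MNX. The energy does not increase with the length, arbitrary lengths. -/
def T_MNX : Prop := ∀ th : ℝ, 0 < th → th ≤ 1 → ∃ C : ℝ, 0 < C ∧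
  ∀ (X N H : ℕ) (lam : ℕ → ℝ), 3 ≤ X → (∀ n, |lam n| ≤ 1) → 1 ≤ N → N ≤ H →
    EB.lg X (fun n => En th lam 1 H n) ≤ EB.lg X (fun n => En th lam 1 N n) +
      C * ((N : ℝ) / H * Real.log X + Real.log H + 1)

/-- TEB. The mean energies are bounded. -/
def T_TEB : Prop := ∀ th : ℝ, 0 < th → th ≤ 1 → ∀ (X k : ℕ) (lam : ℕ → ℝ), 3 ≤ X →
  (∀ n, |lam n| ≤ 1) → 0 ≤ te th lam X k ∧ te th lam X k ≤ 2

end Pool.Agent.H72.GS2
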