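import Pool.Agent.H72.GS2.Targets
import Pool.Agent.H72.EN.EN

/-!
# The telescope, sequences with values in `[0, 2]`
-/

set_option autoImplicit false

namespace Pool.Agent.H72.GS2

open Finset Pool.Agent.H6.N4D Pool.Agent.H93.GS Pool.Agent.H93 Pool.Agent.H72.EN

lemma telE (hTEL : T_TEL) (A B m₀ me : ℕ) (η δ E : ℝ) (t b r : ℕ → ℝ)
    (hA : 2 ≤ A) (hB : 2 ≤ B) (h1 : 3500 ≤ m₀) (h2 : 100 * A ≤ m₀) (h3 : m₀ ≤ me - me / 500)
    (h4 : 0 ≤ η) (h5 : η ≤ 1) (h6 : 0 ≤ δ) (h7 : ∀ k, 0 ≤ t k ∧ t k ≤ 2)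
    (h8 : ∀ i j, i ≤ j → j ≤ A * me → t j ≤ t i + δ) (h9 : ∀ m, 0 ≤ b m)
    (h10 : ∀ (K : ℕ) (c : ℕ → ℕ), Chn B m₀ me K c → ∑ i ∈ range K, b (c i) ≤ E)
    (h11 : ∀ m ∈ Icc m₀ me, t (m - m / 500) - t (A * m - m / 100) ≤
      (1 + η) * (t m - t (A * m)) + b m + r m) :
    t m₀ - t (me - me / 500) ≤ 48 / A + 1200 * η * A + 1200 * B * E +
      600 * ∑ m ∈ Icc m₀ me, 1 / (m : ℝ) * r m +
      1800 * δ * (1 + ∑ m ∈ Icc m₀ me, 1 / (m : ℝ)) := by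
  have h := hTEL A B m₀ me η 0 (δ / 2) (E / 2) (fun k => t k / 2) (fun _ => 0)
    (fun m => b m / 2) (fun m => r m / 2) hA hB h1 h2 h3 h4 h5 le_rfl (by positivity)
    (fun k => ⟨by have := (h7 k).1; positivity, by have := (h7 k).2; linarith⟩)
    (fun k => ⟨le_rfl, by norm_num⟩)
    (fun i j hij hj => ⟨by have := h8 i j hij hj; linarith, by linarith⟩)
    (fun m => by have := h9 m; positivity)
    (fun K c hc => by
      have h12 := h10 K c hc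
      rw [← sum_div]
      linarith)
    (fun m hm => by
      have h12 := h11 m hm
      linarith)
  have h13 : ∑ m ∈ Icc m₀ me, 1 / (m : ℝ) * (r m / 2) =
      (∑ m ∈ Icc m₀ me, 1 / (m : ℝ) * r m) / 2 := by
    rw [sum_div]
    exact sum_congr rfl fun m _ => by ring
  simp only [h13] at h
  have h14 : 18000 * (0 : ℝ) / m₀ = 0 := by simp
  rw [h14] at h
  have h15 : 24 / (A : ℝ) = (48 / A) / 2 := by ring
  rw [h15] at h
  linarith

end Pool.Agent.H72.GS2
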