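import Pool.Agent.H72.GS2.Targets

/-!
# The mean energies are bounded
-/

set_option autoImplicit false

namespace Pool.Agent.H72.GS2

open Finset Pool.Agent.H6.N4D Pool.Agent.H93.GS Pool.Agent.H93

theorem pf_TEB (hOPT : T_OPT) : T_TEB := by
  intro th h0 h1 X k lam hX hl
  have hen : ∀ n, 0 ≤ En th lam 1 (2 ^ k) n ∧ En th lam 1 (2 ^ k) n ≤ 1 := by
    intro n
    obtain ⟨g, _, _, h2, _, h3⟩ := hOPT th lam 1 (2 ^ k) n h0 h1 hl le_rfl Nat.one_le_two_pow
    exact ⟨h2, h3 rfl⟩
  have hX3 : (3 : ℝ) ≤ X := by exact_mod_cast hX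
  have hY1 : 1 ≤ Real.log X := by
    rw [Real.le_log_iff_exp_le (by linarith)]
    have := Real.exp_one_lt_d9
    linarith
  unfold te
  constructor
  · refine div_nonneg ?_ (by linarith)
    unfold EB.lg
    exact sum_nonneg fun n _ => div_nonneg (hen n).1 (Nat.cast_nonneg _)
  · rw [div_le_iff₀ (by linarith)]
    unfold EB.lg
    calc ∑ n ∈ Icc 1 X, En th lam 1 (2 ^ k) n / n ≤ ∑ n ∈ Icc 1 X, 1 / (n : ℝ) := by
          refine sum_le_sum fun n _ => ?_
          exact div_le_div_of_nonneg_right (hen n).2 (Nat.cast_nonneg _)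
      _ ≤ 1 + Real.log X := by
          have := harmonic_le_one_add_log X
          rw [harmonic_eq_sum_Icc] at this
          push_cast at this
          simpa using this
      _ ≤ 2 * Real.log X := by linarith

end Pool.Agent.H72.GS2
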